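import Pool.Agent.Lib.MP_1c0d65_gt.QN.Exc

/-! Reflections in roots permute the exceptional classes; three orthogonal roots. -/

set_option autoImplicit false

open Finset

noncomputable section

namespace Pool.Agent.Lib.MP_1c0d65_gt.QN.Num

variable {V : Type} [AddCommGroup V] [Module ℝ V] {D : Num V} {A L x y a b r : V}

/-- The reflection in a root. -/
def rf (D : Num V) (r : V) : V →ₗ[ℝ] V := LinearMap.id + (D.B.flip r).smulRight r

theorem rf_apply (r x : V) : D.rf r x = x + D.B x r • r := rfl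

/-- Roots that are differences of two sphere classes. -/
def Rt (D : Num V) (r : V) : Prop :=
  (∃ U ∈ D.S, ∃ U' ∈ D.S, r = U - U') ∧ D.B D.c r = 0 ∧ D.B r r = -2

theorem rf_adj (r x y : V) : D.B (D.rf r x) y = D.B x (D.rf r y) := by
  simp only [rf_apply, map_add, map_smul, LinearMap.add_apply, LinearMap.smul_apply, smul_eq_mul,
    D.symm y r]
  ring

theorem rf_perp (h : D.B x r = 0) : D.rf r x = x := by rw [rf_apply, h, zero_smul, add_zero]

theorem Rt.self (hr : D.Rt r) : D.rf r r = -r := by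
  rw [rf_apply, hr.2.2]
  module

theorem Rt.rf_rf (hr : D.Rt r) (x : V) : D.rf r (D.rf r x) = x := by
  rw [rf_apply r x, map_add, map_smul, hr.self, rf_apply]
  module

theorem Rt.c (hr : D.Rt r) (x : V) : D.B D.c (D.rf r x) = D.B D.c x := by
  rw [← rf_adj, rf_perp hr.2.1]

theorem Rt.int (hr : D.Rt r) (hx : D.Int x) : D.Int (D.rf r x) := fun A hA => by
  obtain ⟨U, hU, U', hU', e⟩ := hr.1
  obtain ⟨z0, h0⟩ := hx A hA
  obtain ⟨z1, h1⟩ := hx U hU
  obtain ⟨z2, h2⟩ := hx U' hU'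
  obtain ⟨z3, h3⟩ := int_of_mem hU A hA
  obtain ⟨z4, h4⟩ := int_of_mem hU' A hA
  refine ⟨z0 + (z1 - z2) * (z3 - z4), ?_⟩
  rw [rf_apply, e]
  simp only [map_add, map_sub, map_smul, LinearMap.add_apply, LinearMap.sub_apply,
    LinearMap.smul_apply, smul_eq_mul, h0, h1, h2, h3, h4]
  push_cast
  ring

open scoped Classical in
theorem T_eq (hx : D.B D.c x = 0) (y : V) :
    D.T x y = ∑ A ∈ D.S.filter D.Ex, (D.B x A * D.B y A) • A := by
  rw [T, sum_filter, sum_filter]
  refine sum_congr rfl fun A hA => ?_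
  by_cases h : D.Ex A
  · rw [if_pos h.2.1, if_pos h, D.uniq A hA (by rw [h.2.2]; norm_num), Nat.cast_one, one_mul]
  · rw [if_neg h]
    split_ifs with h1
    · rcases deg_one hA h1 with h' | ⟨-, h'⟩
      · exact absurd h' h
      · rw [h', D.symm x, hx, mul_zero, zero_mul, zero_smul]
    · rfl

theorem T_neg_left (x y : V) : D.T (-x) y = -D.T x y := by
  simp [T]

theorem T_neg_right (x y : V) : D.T x (-y) = -D.T x y := by
  simp [T]

variable [FiniteDimensional ℝ V]

theorem Rt.ex (hr : D.Rt r) (hL : D.Li L) (h6 : D.d ≤ 6) (h : D.Ex A) : D.Ex (D.rf r A) :=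
  hL.exc h6 (hr.int (int_of_mem h.1)) (by rw [hr.c, h.2.1]) (by rw [rf_adj, hr.rf_rf, h.2.2])

/-- The product commutes with the reflections. -/
theorem Rt.T (hr : D.Rt r) (hL : D.Li L) (h6 : D.d ≤ 6) (hx : D.B D.c x = 0) (y : V) :
    D.rf r (D.T x y) = D.T (D.rf r x) (D.rf r y) := by
  classical
  rw [T_eq hx, T_eq (by rw [hr.c, hx]), map_sum]
  refine sum_bij' (fun A _ => D.rf r A) (fun A _ => D.rf r A) ?_ ?_ ?_ ?_ ?_
  · intro A hA
    have := hr.ex hL h6 (mem_filter.1 hA).2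
    exact mem_filter.2 ⟨this.1, this⟩
  · intro A hA
    have := hr.ex hL h6 (mem_filter.1 hA).2
    exact mem_filter.2 ⟨this.1, this⟩
  · exact fun A _ => hr.rf_rf A
  · exact fun A _ => hr.rf_rf A
  · intro A _
    rw [map_smul, rf_adj, rf_adj, hr.rf_rf]

/-- The product of two orthogonal roots vanishes in degree two. -/
theorem Rt.T_orth (ha : D.Rt a) (hb : D.Rt b) (hL : D.Li L) (h6 : D.d ≤ 6) (h : D.B a b = 0) :
    D.T a b = 0 := by
  have h1 := ha.T hL h6 ha.2.1 b
  have h2 := hb.T hL h6 ha.2.1 b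
  rw [ha.self, rf_perp (x := b) (by rw [D.symm, h]), T_neg_left, rf_apply] at h1
  rw [hb.self, rf_perp h, T_neg_right, rf_apply] at h2
  have h3 := congrArg (fun z => D.B z b) h1
  simp only [map_add, map_smul, map_neg, LinearMap.add_apply, LinearMap.smul_apply,
    LinearMap.neg_apply, smul_eq_mul, h, mul_zero, add_zero] at h3
  rw [show D.B (D.T a b) b = 0 by linarith, zero_smul, add_zero] at h2
  have h4 : (2 : ℝ) • D.T a b = 0 := by rw [two_smul]; exact add_eq_zero_iff_eq_neg.2 h2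
  exact (smul_eq_zero.1 h4).resolve_left two_ne_zero

omit [FiniteDimensional ℝ V] in
theorem Rt.fix (hr : D.Rt r) (h : D.rf r y = y) : D.B y r = 0 := by
  have h3 := congrArg (fun z => D.B z r) h
  simp only [rf_apply, map_add, map_smul, LinearMap.add_apply, LinearMap.smul_apply,
    smul_eq_mul, hr.2.2] at h3
  linarith

/-- Two roots that are exchanged by a product of two reflections have the same square. -/
theorem Rt.T_sq {g p q : V} (ha : D.Rt a) (hb : D.Rt b) (hg : D.Rt g) (hp : D.Rt p)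
    (hq : D.Rt q) (hL : D.Li L) (h6 : D.d ≤ 6) (ab : D.B a b = 0) (ag : D.B a g = 0)
    (bg : D.B b g = 0) (qp : D.B q p = 0) (e1 : D.rf p (D.rf q a) = b)
    (e2 : D.rf p (D.rf q b) = a) (pa : D.B p a = -1) (qa : D.B q a = 1) (pg : D.B p g = 1)
    (qg : D.B q g = 1) : D.T a a = D.T b b := by
  obtain ⟨y, hy⟩ : ∃ y, y = D.T a a - D.T b b := ⟨_, rfl⟩
  have ya : D.B y a = 0 := ha.fix (by
    rw [hy, map_sub, ha.T hL h6 ha.2.1, ha.T hL h6 hb.2.1, ha.self,
      rf_perp (x := b) (by rw [D.symm, ab]), T_neg_left, T_neg_right, neg_neg])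
  have yg : D.B y g = 0 := hg.fix (by
    rw [hy, map_sub, hg.T hL h6 ha.2.1, hg.T hL h6 hb.2.1, rf_perp ag, rf_perp bg])
  have h1 : D.rf p (D.rf q y) = -y := by
    rw [hy, map_sub, map_sub, hq.T hL h6 ha.2.1, hq.T hL h6 hb.2.1,
      hp.T hL h6 (by rw [hq.c, ha.2.1]), hp.T hL h6 (by rw [hq.c, hb.2.1]), e1, e2, neg_sub]
  rw [rf_apply q y, map_add, map_smul, rf_perp qp, rf_apply] at h1
  have h2 := congrArg (fun z => D.B z a) h1
  have h3 := congrArg (fun z => D.B z g) h1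
  simp only [map_add, map_smul, map_neg, LinearMap.add_apply, LinearMap.smul_apply,
    LinearMap.neg_apply, smul_eq_mul, ya, yg, pa, qa, pg, qg] at h2 h3
  rw [show D.B y p = 0 by linarith, show D.B y q = 0 by linarith, zero_smul, zero_smul, add_zero,
    add_zero] at h1
  have h4 : (2 : ℝ) • y = 0 := by rw [two_smul]; exact add_eq_zero_iff_eq_neg.2 h1
  exact sub_eq_zero.1 (hy ▸ (smul_eq_zero.1 h4).resolve_left two_ne_zero)

theorem Li.bad (hL : D.Li L) (h4 : D.d ≤ 4) : D.Bad := by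
  have hc := hL.card
  obtain ⟨t, ht, htc⟩ := exists_subset_card_eq (show 5 ≤ (D.P L).card by omega)
  obtain ⟨e, he, hi⟩ : ∃ e : Fin 5 → V, (∀ i, e i ∈ D.P L) ∧ Function.Injective e :=
    ⟨fun i => (t.equivFinOfCardEq htc).symm i, fun i => ht (Subtype.property _),
      Subtype.val_injective.comp (Equiv.injective _)⟩
  have hx : ∀ i, D.Ex (e i) := fun i => hL.ex (he i)
  have ee : ∀ i j, D.B (e i) (e j) = if i = j then -1 else 0 := fun i j => by
    split_ifs with h
    · rw [h, (hx j).2.2]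
    · exact hL.orth (he i) (he j) (hi.ne h)
  have eL : ∀ i, D.B (e i) L = 0 := fun i => by
    classical
    exact (mem_filter.1 (he i)).2.2
  have Le : ∀ i, D.B L (e i) = 0 := fun i => by rw [D.symm, eL]
  have ce : ∀ i, D.B D.c (e i) = 1 := fun i => (hx i).2.1
  have rt : ∀ i j, i ≠ j → D.Rt (e i - e j) := fun i j h =>
    ⟨⟨_, (hx i).1, _, (hx j).1, rfl⟩, by simp [ce], by simp [ee, h, h.symm]; norm_num⟩
  have h5 : D.Ex (L - e 0 - e 1) := hL.ex2 (he 0) (he 1) (hi.ne (by decide))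
  have hg : D.Rt (L - e 0 - e 1 - e 4) :=
    ⟨⟨_, h5.1, _, (hx 4).1, rfl⟩, by rw [map_sub, h5.2.1, ce, sub_self],
      by simp [ee, eL, Le, hL.2.2]; norm_num⟩
  have h6 : D.d ≤ 6 := by omega
  have ha := rt 0 1 (by decide)
  have hb := rt 2 3 (by decide)
  have ab : D.B (e 0 - e 1) (e 2 - e 3) = 0 := by simp [ee]
  have ag : D.B (e 0 - e 1) (L - e 0 - e 1 - e 4) = 0 := by simp [ee, eL]
  have bg : D.B (e 2 - e 3) (L - e 0 - e 1 - e 4) = 0 := by simp [ee, eL]
  refine ⟨e 0, (hx 0).1, e 1, (hx 1).1, e 2, (hx 2).1, e 3, (hx 3).1, _, h5.1, e 4, (hx 4).1,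
    _, _, _, rfl, rfl, rfl, ab, ag, bg, by rw [ha.2.2, hb.2.2], ha.T_orth hb hL h6 ab,
    ha.T_orth hg hL h6 ag, hb.T_orth hg hL h6 bg,
    ha.T_sq hb hg (rt 0 2 (by decide)) (rt 1 3 (by decide)) hL h6 ab ag bg (by simp [ee])
      (by simp [rf_apply, ee]) (by simp [rf_apply, ee]) (by simp [ee]) (by simp [ee])
      (by simp [ee, eL]) (by simp [ee, eL]),
    by simp [ee], by simp [ee], by simp [ee, Le]⟩

end Pool.Agent.Lib.MP_1c0d65_gt.QN.Num
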