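import Pool.Agent.Lib.MP_1c0d65_gt.QN.Def

/-! Hodge index theorem, splitting and gluing of classes. -/

set_option autoImplicit false

open Finset

noncomputable section

namespace Pool.Agent.Lib.MP_1c0d65_gt.QN.Num

variable {V : Type} [AddCommGroup V] [Module ℝ V] {D : Num V} {A A' L F x y a : V}

theorem c_pos : 0 < D.B D.c D.c := by rw [D.hd]; exact_mod_cast D.d0

theorem nonneg (h : A ∈ D.S) (h' : A' ∈ D.S) (hne : A ≠ A') : 0 ≤ D.B A A' := by
  obtain ⟨k, hk⟩ := D.pos A h A' h' hne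
  rw [hk]; positivity

theorem half (ha : D.B a A = 0) (h : A' = A - A') : D.B a A' = 0 := by
  have e : A = A' + A' := eq_add_of_sub_eq h.symm
  rw [e, map_add] at ha
  linarith

theorem term_nonneg (ha : D.B a A = 0) (h : A' ∈ D.S) :
    0 ≤ (D.N A' : ℝ) * D.N (A - A') * D.B A' (A - A') * D.B a A' ^ 2 := by
  by_cases h0 : D.N (A - A') = 0
  · simp [h0]
  by_cases e : A' = A - A'
  · simp [half ha e]
  have := nonneg h ((D.hN _).1 h0) e
  positivity

theorem deg_ge (h : A ∈ D.S) : 1 ≤ D.B D.c A := by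
  rcases D.deg A h with e | e | e | e <;> rw [e] <;> norm_num

theorem deg_two (h : A ∈ D.S) (h2 : 2 ≤ D.B D.c A) :
    D.B D.c A = 2 ∨ D.B D.c A = 3 ∨ D.B D.c A = 4 := by
  rcases D.deg A h with e | e
  · linarith
  · exact e

theorem sq_ge (h : A ∈ D.S) : D.B D.c A - 2 ≤ D.B A A := by
  obtain ⟨k, -, hk⟩ := D.adj A h
  have : (0 : ℝ) ≤ k := by positivity
  linarith

theorem perp_nonpos (h : A ∈ D.S) (h2 : 2 ≤ D.B D.c A) (ha : D.B a A = 0) : D.B a a ≤ 0 := by
  classical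
  have e := D.wdvv A a (deg_two h h2) ha
  have h0 : 0 ≤ (if D.B D.c A = 2 then 2 else 1) * (D.N A : ℝ) * (-D.B a a) := by
    rw [e]
    exact sum_nonneg fun A' hA' => term_nonneg ha (mem_filter.1 hA').1
  have h1 : (0 : ℝ) < D.N A := by exact_mod_cast Nat.pos_of_ne_zero ((D.hN A).2 h)
  have h3 : (0 : ℝ) < (if D.B D.c A = 2 then 2 else 1) * (D.N A : ℝ) := by
    split_ifs <;> positivity
  have := nonneg_of_mul_nonneg_right h0 h3
  linarith

/-- Hodge index. -/
theorem hodge (hx : 0 < D.B x x) (h : D.B x y = 0) : D.B y y ≤ 0 := by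
  obtain ⟨A, hA, h3⟩ := D.ne
  by_contra hy
  push Not at hy
  have h1 := perp_nonpos (a := D.B y A • x - D.B x A • y) hA (by linarith) (by simp; ring)
  simp only [map_sub, map_smul, LinearMap.sub_apply, LinearMap.smul_apply, smul_eq_mul, h,
    D.symm y x] at h1
  have h2 : D.B x A = 0 := by
    by_contra h2
    have := mul_pos (sq_pos_of_ne_zero h2) hy
    nlinarith [mul_nonneg (sq_nonneg (D.B y A)) hx.le]
  exact absurd (perp_nonpos hA (by linarith) h2) hx.not_ge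

theorem eq_zero (hx : 0 < D.B x x) (h : D.B x y = 0) (hy : 0 ≤ D.B y y) : y = 0 := by
  have h0 : D.B y y = 0 := le_antisymm (hodge hx h) hy
  refine D.nd y fun z => ?_
  by_contra hz
  obtain ⟨w, hw, hw'⟩ : ∃ w, D.B x w = 0 ∧ D.B y w = D.B y z :=
    ⟨z - (D.B x z / D.B x x) • x, by simp [div_mul_cancel₀ _ hx.ne'], by simp [D.symm y x, h]⟩
  have h1 := hodge (y := w + ((1 - D.B w w) / (2 * D.B y z)) • y) hx (by simp [hw, h])
  simp only [map_add, map_smul, LinearMap.add_apply, LinearMap.smul_apply, smul_eq_mul, h0,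
    D.symm w y, hw'] at h1
  have : (1 - D.B w w) / (2 * D.B y z) * D.B y z = (1 - D.B w w) / 2 := by field_simp
  rw [this] at h1
  linarith

theorem cs_aux (x y : V) : D.B (D.B x x • y - D.B x y • x) (D.B x x • y - D.B x y • x) =
    D.B x x * (D.B x x * D.B y y - D.B x y ^ 2) := by
  simp only [map_sub, map_smul, LinearMap.sub_apply, LinearMap.smul_apply, smul_eq_mul,
    D.symm y x]
  ring

theorem cs (hx : 0 < D.B x x) (y : V) : D.B x x * D.B y y ≤ D.B x y ^ 2 := by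
  have h1 := hodge (y := D.B x x • y - D.B x y • x) hx (by simp; ring)
  rw [cs_aux] at h1
  have := nonpos_of_mul_nonpos_right h1 hx
  linarith

theorem cs_eq (hx : 0 < D.B x x) (h : D.B x y ^ 2 ≤ D.B x x * D.B y y) :
    D.B x x • y = D.B x y • x :=
  sub_eq_zero.1 (eq_zero hx (by simp; ring) (by
    rw [cs_aux]
    exact mul_nonneg hx.le (sub_nonneg.2 h)))

/-- Orthogonal isotropic vectors are proportional. -/
theorem null_eq (hx : D.B x x = 0) (hy : D.B y y = 0) (h : D.B x y = 0) :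
    D.B D.c x • y = D.B D.c y • x :=
  sub_eq_zero.1 (eq_zero (D := D) c_pos (by simp; ring) (by simp [hx, hy, h, D.symm y x]))

theorem int_of_mem (h : A ∈ D.S) : D.Int A := fun A' h' => by
  by_cases e : A = A'
  · subst e
    obtain ⟨k, -, hk⟩ := D.adj A h
    rcases D.deg A h with e | e | e | e <;> rw [e] at hk
    exacts [⟨k - 1, by rw [hk]; push_cast; ring⟩, ⟨k, by rw [hk]; push_cast; ring⟩,
      ⟨k + 1, by rw [hk]; push_cast; ring⟩, ⟨k + 2, by rw [hk]; push_cast; ring⟩]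
  · obtain ⟨k, hk⟩ := D.pos A h A' h' e
    exact ⟨k, by rw [hk]; simp⟩

/-- Degree one: exceptional, or the class `c` in degree one. -/
theorem deg_one (h : A ∈ D.S) (h1 : D.B D.c A = 1) : D.Ex A ∨ (D.d = 1 ∧ A = D.c) := by
  obtain ⟨k, k1, hk⟩ := D.adj A h
  rcases Nat.eq_zero_or_pos k with rfl | k0
  · exact Or.inl ⟨h, h1, by rw [hk, h1]; norm_num⟩
  have k2 : (2 : ℝ) ≤ k := by exact_mod_cast (show 2 ≤ k by omega)
  have hs := cs (D := D) c_pos A
  have d1 : (1 : ℝ) ≤ D.d := by exact_mod_cast D.d0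
  rw [h1] at hk
  have hd : D.d = 1 := by
    have : (D.d : ℝ) ≤ 1 := by
      rw [D.hd, h1] at hs
      nlinarith
    exact le_antisymm (by exact_mod_cast this) D.d0
  have := cs_eq (D := D) (y := A) c_pos (by rw [D.hd, h1, hd]; push_cast; linarith)
  rw [D.hd, h1, hd] at this
  exact Or.inr ⟨hd, by simpa using this⟩

/-- A vector `a ⊥ A` of nonzero square sees a splitting of `A`. -/
theorem split (h : A ∈ D.S) (h2 : 2 ≤ D.B D.c A) (ha : D.B a A = 0) (h0 : D.B a a ≠ 0) :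
    ∃ A' ∈ D.S, A - A' ∈ D.S ∧ 2 * D.B D.c A' ≤ D.B D.c A ∧ 1 ≤ D.B A' (A - A') ∧
      A' ≠ A - A' ∧ D.B a A' ≠ 0 := by
  classical
  have e := D.wdvv A a (deg_two h h2) ha
  have h1 : (D.N A : ℝ) ≠ 0 := by exact_mod_cast (D.hN A).2 h
  have h3 : (if D.B D.c A = 2 then 2 else 1) * (D.N A : ℝ) * (-D.B a a) ≠ 0 :=
    mul_ne_zero (mul_ne_zero (by split_ifs <;> norm_num) h1) (neg_ne_zero.2 h0)
  rw [e] at h3
  obtain ⟨A', hA', h4⟩ := exists_ne_zero_of_sum_ne_zero h3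
  obtain ⟨m1, m2⟩ := mem_filter.1 hA'
  simp only [ne_eq, mul_eq_zero, not_or, Nat.cast_eq_zero, pow_eq_zero_iff two_ne_zero] at h4
  obtain ⟨⟨⟨-, n2⟩, n3⟩, n4⟩ := h4
  have ne : A' ≠ A - A' := fun e => n4 (half ha e)
  obtain ⟨k, hk⟩ := D.pos A' m1 _ ((D.hN _).1 n2) ne
  refine ⟨A', m1, (D.hN _).1 n2, m2, ?_, ne, n4⟩
  rw [hk] at n3 ⊢
  exact_mod_cast Nat.pos_of_ne_zero (by exact_mod_cast n3)

theorem glue_le (h : A ∈ D.S) (h' : A' ∈ D.S) (h4 : D.B D.c A + D.B D.c A' ≤ 4)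
    (hle : D.B D.c A ≤ D.B D.c A') (h1 : 0 < D.B A A') (ha : D.B a (A + A') = 0)
    (ha' : D.B a A ≠ 0) : A + A' ∈ D.S := by
  classical
  by_contra hn
  have h0 : D.N (A + A') = 0 := by
    by_contra h0
    exact hn ((D.hN _).1 h0)
  have e := D.wdvv (A + A') a (by
    rw [map_add]
    rcases D.deg A h with e | e | e | e <;> rcases D.deg A' h' with e' | e' | e' | e' <;>
      rw [e, e'] at h4 ⊢ <;> first | (norm_num at h4; done) | norm_num) ha
  rw [h0, Nat.cast_zero, mul_zero, zero_mul, eq_comm, sum_eq_zero_iff_of_nonneg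
    fun A' hA' => term_nonneg ha (mem_filter.1 hA').1] at e
  have := e A (mem_filter.2 ⟨h, by rw [map_add]; linarith⟩)
  rw [add_sub_cancel_left] at this
  have n1 : (D.N A : ℝ) ≠ 0 := by exact_mod_cast (D.hN A).2 h
  have n2 : (D.N A' : ℝ) ≠ 0 := by exact_mod_cast (D.hN A').2 h'
  exact mul_ne_zero (mul_ne_zero (mul_ne_zero n1 n2) h1.ne') (pow_ne_zero 2 ha') this

/-- Gluing. -/
theorem glue (h : A ∈ D.S) (h' : A' ∈ D.S) (h4 : D.B D.c A + D.B D.c A' ≤ 4)
    (h1 : 0 < D.B A A') (ha : D.B a (A + A') = 0) (ha' : D.B a A ≠ 0) : A + A' ∈ D.S := by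
  rcases le_total (D.B D.c A) (D.B D.c A') with hle | hle
  · exact glue_le h h' h4 hle h1 ha ha'
  · rw [add_comm] at ha ⊢
    refine glue_le h' h (by linarith) hle (by rwa [D.symm]) ha fun e => ha' ?_
    rw [map_add, e] at ha
    linarith

theorem Ex.glue (h : D.Ex A) (h' : D.Ex A') (h1 : D.B A A' = 1) : D.Co (A + A') :=
  ⟨Num.glue (a := A - A') h.1 h'.1 (by rw [h.2.1, h'.2.1]; norm_num) (by rw [h1]; norm_num)
      (by simp [h.2.2, h'.2.2, h1, D.symm A' A]) (by simp [h.2.2, h1, D.symm A' A]; norm_num),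
    by rw [map_add, h.2.1, h'.2.1]; norm_num, by simp [h.2.2, h'.2.2, h1, D.symm A' A]⟩

theorem Ex.glue_co (h : D.Ex A) (h' : D.Co F) (h1 : D.B A F = 1) : D.Li (A + F) :=
  ⟨Num.glue (a := A) h.1 h'.1 (by rw [h.2.1, h'.2.1]; norm_num) (by rw [h1]; norm_num)
      (by simp [h.2.2, h1]) (by simp [h.2.2]),
    by rw [map_add, h.2.1, h'.2.1]; norm_num, by simp [h.2.2, h'.2.2, h1, D.symm F A]⟩

/-- Counting dimensions: a finite family without a nonzero orthogonal vector. -/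
theorem finrank_le (s : Finset V) (h : ∀ a, (∀ z ∈ s, D.B a z = 0) → a = 0) :
    Module.finrank ℝ V ≤ s.card := by
  let f : V →ₗ[ℝ] (s → ℝ) := LinearMap.pi fun z => D.B.flip z
  have hf : Function.Injective f := (injective_iff_map_eq_zero f).2 fun a ha =>
    h a fun z hz => congrFun ha ⟨z, hz⟩
  simpa using LinearMap.finrank_le_finrank_of_injective hf

end Pool.Agent.Lib.MP_1c0d65_gt.QN.Num
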