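import Mathlib

/-! The numerical data of the sphere classes of a monotone four-manifold. -/

set_option autoImplicit false

open Finset

noncomputable section

namespace Pool.Agent.Lib.MP_1c0d65_gt.QN

open scoped Classical in
/-- `B` is the intersection form, `c` the first Chern class, `S` the set of classes with a nonzero
count `N`; `wdvv` is what associativity of the quantum product gives in the class `A`. -/
structure Num (V : Type) [AddCommGroup V] [Module ℝ V] where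
  B : LinearMap.BilinForm ℝ V
  symm : ∀ x y, B x y = B y x
  nd : ∀ x, (∀ y, B x y = 0) → x = 0
  c : V
  d : ℕ
  hd : B c c = d
  d0 : 0 < d
  S : Finset V
  N : V → ℕ
  hN : ∀ A, N A ≠ 0 ↔ A ∈ S
  deg : ∀ A ∈ S, B c A = 1 ∨ B c A = 2 ∨ B c A = 3 ∨ B c A = 4
  pos : ∀ A ∈ S, ∀ A' ∈ S, A ≠ A' → ∃ k : ℕ, B A A' = k
  adj : ∀ A ∈ S, ∃ k : ℕ, k ≠ 1 ∧ B A A = B c A - 2 + k
  uniq : ∀ A ∈ S, B A A < 0 → N A = 1
  wdvv : ∀ A a, B c A = 2 ∨ B c A = 3 ∨ B c A = 4 → B a A = 0 →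
    (if B c A = 2 then 2 else 1) * (N A : ℝ) * (-B a a) =
      ∑ A' ∈ S.filter (fun A' => 2 * B c A' ≤ B c A),
        (N A' : ℝ) * N (A - A') * B A' (A - A') * B a A' ^ 2
  ne : ∃ A ∈ S, 3 ≤ B c A
  noether : 10 ≤ d + Module.finrank ℝ V

namespace Num

variable {V : Type} [AddCommGroup V] [Module ℝ V] (D : Num V)

/-- Exceptional classes. -/
def Ex (A : V) : Prop := A ∈ D.S ∧ D.B D.c A = 1 ∧ D.B A A = -1

/-- Conic classes. -/
def Co (A : V) : Prop := A ∈ D.S ∧ D.B D.c A = 2 ∧ D.B A A = 0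

/-- Line classes. -/
def Li (A : V) : Prop := A ∈ D.S ∧ D.B D.c A = 3 ∧ D.B A A = 1

/-- Hyperplane classes of a quadric. -/
def Qu (A : V) : Prop := A ∈ D.S ∧ D.B D.c A = 4 ∧ D.B A A = 2

/-- Classes with integral intersection numbers. -/
def Int (x : V) : Prop := ∀ A ∈ D.S, ∃ z : ℤ, D.B x A = z

open scoped Classical in
/-- The classes of degree one that are orthogonal to `L`. -/
def P (L : V) : Finset V := D.S.filter fun A => D.B D.c A = 1 ∧ D.B A L = 0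

open scoped Classical in
/-- The part of degree two of the quantum product. -/
def T (x y : V) : V :=
  ∑ A ∈ D.S.filter (fun A => D.B D.c A = 1), ((D.N A : ℝ) * D.B x A * D.B y A) • A

/-- The first Chern class is a sum of conics and lines. -/
def Good : Prop := ∃ (r : ℕ) (A : Fin r → V), (∀ i, D.Co (A i) ∨ D.Li (A i)) ∧
  ∑ i, A i = D.c ∧ r + 3 ≤ D.d

/-- Three roots that make the quantum product nilpotent. -/
def Bad : Prop := ∃ E₁ ∈ D.S, ∃ E₂ ∈ D.S, ∃ E₃ ∈ D.S, ∃ E₄ ∈ D.S, ∃ E₅ ∈ D.S, ∃ E₆ ∈ D.S,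
  ∃ a b g : V, a = E₁ - E₂ ∧ b = E₃ - E₄ ∧ g = E₅ - E₆ ∧
    D.B a b = 0 ∧ D.B a g = 0 ∧ D.B b g = 0 ∧ D.B a a = D.B b b ∧
    D.T a b = 0 ∧ D.T a g = 0 ∧ D.T b g = 0 ∧ D.T a a = D.T b b ∧
    D.B a E₁ = -1 ∧ D.B a E₆ = 0 ∧ D.B g E₆ = 1

end Num

end Pool.Agent.Lib.MP_1c0d65_gt.QN
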