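import Pool.Agent.Lib.MP_1c0d65_gt.QN.Line

/-! Noether descent: every integral class of degree one and square minus one is exceptional. -/

set_option autoImplicit false

open Finset

noncomputable section

namespace Pool.Agent.Lib.MP_1c0d65_gt.QN.Num

variable {V : Type} [AddCommGroup V] [Module ℝ V] [FiniteDimensional ℝ V] {D : Num V}
  {A A' L F x y a : V}

theorem Li.exc_nonneg (hL : D.Li L) (hx : D.Int x) (h1 : D.B D.c x = 1) (h2 : D.B x x = -1)
    (hA : A ∈ D.P L) (hne : x ≠ A) : 0 ≤ D.B x A := by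
  classical
  have hc : 0 < D.B D.c D.c := by rw [D.hd]; exact_mod_cast D.d0
  obtain ⟨hS, hA1, hA2⟩ := hL.ex hA
  obtain ⟨z, hz⟩ := hx A hS
  have h0 : D.B D.c (x - A) = 0 := by rw [map_sub, h1, hA1, sub_self]
  have hs : D.B (x - A) (x - A) = -2 - 2 * z := by
    simp only [map_sub, LinearMap.sub_apply]
    rw [h2, hA2, D.symm A x, hz]; ring
  by_contra hneg
  rw [hz] at hneg
  have hz1 : z ≤ -1 := by
    have : z < 0 := by exact_mod_cast not_le.mp hneg
    omega
  have hz2 : (z : ℝ) ≤ -1 := by exact_mod_cast hz1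
  exact hne (sub_eq_zero.mp (eq_zero hc h0 (by rw [hs]; linarith)))

theorem Li.exc_step (hL : D.Li L) (h6 : D.d ≤ 6) (hx : D.Int x) (h1 : D.B D.c x = 1)
    (h2 : D.B x x = -1) (hP : x ∉ D.P L) :
    0 < D.B x L ∧ ∃ L', D.Li L' ∧ D.B x L' ≤ D.B x L - 1 := by
  classical
  have hb : ∀ A ∈ D.P L, 0 ≤ D.B x A := fun A hA =>
    hL.exc_nonneg hx h1 h2 hA (fun e => hP (e ▸ hA))
  have e1 : 3 * D.B x L - ∑ A ∈ D.P L, D.B x A = 1 := by
    have := h1
    rw [D.symm, hL.c_eq, map_sub, map_smul, map_sum, smul_eq_mul] at this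
    exact this
  have e2 : D.B x L * D.B x L - ∑ A ∈ D.P L, D.B x A * D.B x A = -1 := by
    rw [← hL.pars x x, h2]
  have hs : 0 ≤ ∑ A ∈ D.P L, D.B x A := sum_nonneg hb
  refine ⟨by linarith, ?_⟩
  have hc : 3 ≤ (D.P L).card := by have := hL.card; omega
  obtain ⟨A1, m1, M1⟩ := exists_max_image (D.P L) (fun A => D.B x A) (card_pos.mp (by omega))
  have c1 := card_erase_of_mem m1
  obtain ⟨A2, m2, M2⟩ := exists_max_image ((D.P L).erase A1) (fun A => D.B x A)
    (card_pos.mp (by omega))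
  have c2 := card_erase_of_mem m2
  obtain ⟨A3, m3, M3⟩ := exists_max_image (((D.P L).erase A1).erase A2) (fun A => D.B x A)
    (card_pos.mp (by omega))
  have m2' := mem_of_mem_erase m2
  have m3' := mem_of_mem_erase m3
  have m3'' := mem_of_mem_erase m3'
  refine ⟨_, hL.crem m1 m2' m3'' (ne_of_mem_erase m2).symm (ne_of_mem_erase m3').symm
    (ne_of_mem_erase m3).symm, ?_⟩
  simp only [map_add, map_sub]
  obtain ⟨a, ha⟩ := hx L hL.1
  obtain ⟨b1, hb1⟩ := hx A1 (hL.ex m1).1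
  obtain ⟨b2, hb2⟩ := hx A2 (hL.ex m2').1
  obtain ⟨b3, hb3⟩ := hx A3 (hL.ex m3'').1
  by_contra hcon
  have hle : D.B x A1 + D.B x A2 + D.B x A3 ≤ D.B x L := by
    rw [ha, hb1, hb2, hb3] at hcon ⊢
    have : a - 1 < a - b1 - b2 + (a - b3) := by exact_mod_cast not_le.mp hcon
    have : b1 + b2 + b3 ≤ a := by omega
    exact_mod_cast this
  have hr : ∑ A ∈ ((D.P L).erase A1).erase A2, D.B x A * (D.B x A - D.B x A3) ≤ 0 :=
    sum_nonpos fun A hA => mul_nonpos_of_nonneg_of_nonpos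
      (hb A (mem_of_mem_erase (mem_of_mem_erase hA))) (sub_nonpos.mpr (M3 A hA))
  have ht : ∑ A ∈ D.P L, D.B x A * (D.B x A - D.B x A3) =
      ∑ A ∈ D.P L, D.B x A * D.B x A - D.B x A3 * ∑ A ∈ D.P L, D.B x A := by
    rw [mul_sum, ← sum_sub_distrib]
    exact sum_congr rfl fun A _ => by ring
  rw [← add_sum_erase _ _ m1, ← add_sum_erase _ _ m2] at ht
  have u0 : 0 ≤ D.B x A1 - D.B x A3 := sub_nonneg.mpr (M1 A3 m3'')
  have v0 : 0 ≤ D.B x A2 - D.B x A3 := sub_nonneg.mpr (M2 A3 m3')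
  have t0 := hb A3 m3''
  generalize D.B x A1 = p at *
  generalize D.B x A2 = q at *
  generalize D.B x A3 = t at *
  generalize D.B x L = s at *
  have w0 : 0 ≤ s - (p + q + t) := sub_nonneg.mpr hle
  have k1 : ∑ A ∈ D.P L, D.B x A = 3 * s - 1 := by linarith
  rw [k1] at ht
  nlinarith [mul_nonneg w0 w0, mul_nonneg w0 u0, mul_nonneg w0 v0, mul_nonneg w0 t0,
    mul_nonneg u0 v0, mul_nonneg u0 t0, mul_nonneg v0 t0]

theorem Li.exc (hL : D.Li L) (h6 : D.d ≤ 6) (hx : D.Int x) (h1 : D.B D.c x = 1)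
    (h2 : D.B x x = -1) : D.Ex x := by
  have key : ∀ n : ℕ, ∀ L, D.Li L → D.B x L ≤ n → D.Ex x := by
    intro n
    induction n with
    | zero =>
      intro L hL hn
      by_contra hE
      have := (hL.exc_step h6 hx h1 h2 fun h => hE (hL.ex h)).1
      push_cast at hn
      linarith
    | succ n ih =>
      intro L hL hn
      by_contra hE
      obtain ⟨L', hL', h⟩ := (hL.exc_step h6 hx h1 h2 fun h => hE (hL.ex h)).2
      push_cast at hn
      exact hE (ih L' hL' (by linarith))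
  obtain ⟨n, hn⟩ := exists_nat_ge (D.B x L)
  exact key n L hL hn

end Pool.Agent.Lib.MP_1c0d65_gt.QN.Num
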