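import Pool.Agent.Lib.MP_1c0d65_gt.QN.Line

/-! The first Chern class as a sum of conics and lines in degree at least five. -/

set_option autoImplicit false

open Finset

noncomputable section

namespace Pool.Agent.Lib.MP_1c0d65_gt.QN.Num

variable {V : Type} [AddCommGroup V] [Module ℝ V] [FiniteDimensional ℝ V] {D : Num V}
  {A A' L F x y a : V}

theorem Li.good (hL : D.Li L) (h5 : 5 ≤ D.d) : D.Good := by
  classical
  have hc := hL.c_eq
  have hk := hL.card
  have h4 : (D.P L).card = 0 ∨ (D.P L).card = 1 ∨ (D.P L).card = 2 ∨ (D.P L).card = 3 ∨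
      (D.P L).card = 3 + 1 := by omega
  rcases h4 with h | h | h | h | h
  · refine ⟨3, ![L, L, L], fun i => ?_, ?_, by omega⟩
    · fin_cases i <;> exact Or.inr hL
    · rw [hc, card_eq_zero.1 h, Fin.sum_univ_three]
      simp only [Matrix.cons_val, sum_empty]
      module
  · obtain ⟨e, he⟩ := card_eq_one.1 h
    have m : e ∈ D.P L := by rw [he]; simp
    refine ⟨3, ![L, L, L - e], fun i => ?_, ?_, by omega⟩
    · fin_cases i
      exacts [Or.inr hL, Or.inr hL, Or.inl (hL.co m)]
    · rw [hc, he, Fin.sum_univ_three]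
      simp only [Matrix.cons_val, sum_singleton]
      module
  · obtain ⟨e, e', n, he⟩ := card_eq_two.1 h
    have m : e ∈ D.P L := by rw [he]; simp
    have m' : e' ∈ D.P L := by rw [he]; simp
    refine ⟨3, ![L, L - e, L - e'], fun i => ?_, ?_, by omega⟩
    · fin_cases i
      exacts [Or.inr hL, Or.inl (hL.co m), Or.inl (hL.co m')]
    · rw [hc, he, Fin.sum_univ_three, sum_pair n]
      simp only [Matrix.cons_val]
      module
  · obtain ⟨e, e', e'', n, n', n'', he⟩ := card_eq_three.1 h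
    have m : e ∈ D.P L := by rw [he]; simp
    have m' : e' ∈ D.P L := by rw [he]; simp
    have m'' : e'' ∈ D.P L := by rw [he]; simp
    refine ⟨3, ![L - e, L - e', L - e''], fun i => ?_, ?_, by omega⟩
    · fin_cases i
      exacts [Or.inl (hL.co m), Or.inl (hL.co m'), Or.inl (hL.co m'')]
    · rw [hc, he, Fin.sum_univ_three, sum_insert (by simp [n, n']), sum_pair n'']
      simp only [Matrix.cons_val]
      module
  · obtain ⟨u, t, hu, ht, h3⟩ := card_eq_succ.1 h
    obtain ⟨e, e', e'', n, n', n'', rfl⟩ := card_eq_three.1 h3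
    have m0 : u ∈ D.P L := by rw [← ht]; simp
    have m : e ∈ D.P L := by rw [← ht]; simp
    have m' : e' ∈ D.P L := by rw [← ht]; simp
    have m'' : e'' ∈ D.P L := by rw [← ht]; simp
    have hu' : u ≠ e ∧ u ≠ e' ∧ u ≠ e'' := by simpa [not_or] using hu
    have z : ∀ w ∈ D.P L, D.B w L = 0 := fun w hw => (mem_filter.1 hw).2.2
    have z' : ∀ w ∈ D.P L, D.B L w = 0 := fun w hw => (D.symm _ _).trans (z w hw)
    have g : D.Co ((L - u - e) + (L - e' - e'')) :=
      (hL.ex2 m0 m hu'.1).glue (hL.ex2 m' m'' n'') (by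
        simp only [map_sub, LinearMap.sub_apply, hL.2.2, z _ m0, z _ m, z' _ m', z' _ m'',
          hL.orth m0 m' hu'.2.1, hL.orth m0 m'' hu'.2.2, hL.orth m m' n, hL.orth m m'' n']
        norm_num)
    refine ⟨2, ![L, (L - u - e) + (L - e' - e'')], fun i => ?_, ?_, by omega⟩
    · fin_cases i
      exacts [Or.inr hL, Or.inl g]
    · rw [hc, ← ht, Fin.sum_univ_two, sum_insert hu, sum_insert (by simp [n, n']), sum_pair n'']
      simp only [Matrix.cons_val]
      module

theorem gd_split (h : D.Qu A) (hn : ∀ L, ¬ D.Li L) (ha : D.B a A = 0) (h0 : D.B a a ≠ 0) :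
    ∃ F, D.Co F ∧ D.Co (A - F) ∧ D.B F (A - F) = 1 ∧ D.B a F ≠ 0 := by
  obtain ⟨F, m, m', h1, h2, -, h3⟩ := split h.1 (by rw [h.2.1]; norm_num) ha h0
  obtain ⟨k, -, hk⟩ := D.adj F m
  obtain ⟨k', -, hk'⟩ := D.adj _ m'
  have e : D.B A A = D.B F F + D.B (A - F) (A - F) + 2 * D.B F (A - F) := by
    simp only [map_sub, LinearMap.sub_apply, D.symm F A]
    ring
  have ec : D.B D.c (A - F) = 4 - D.B D.c F := by rw [map_sub, h.2.1]
  have p : (0 : ℝ) ≤ k := Nat.cast_nonneg k
  have p' : (0 : ℝ) ≤ k' := Nat.cast_nonneg k'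
  have hA := h.2.2
  rw [h.2.1] at h1
  rcases D.deg F m with d | d | d | d
  · exact (hn (A - F) ⟨m', by linarith, by linarith⟩).elim
  · exact ⟨F, ⟨m, d, by linarith⟩, ⟨m', by linarith, by linarith⟩, by linarith, h3⟩
  · linarith
  · linarith

theorem gd_eq (h : D.Co A) (h' : D.Co A') (e : D.B A A' = 0) : A = A' := by
  have := null_eq h.2.2 h'.2.2 e
  rw [h.2.1, h'.2.1] at this
  exact (smul_right_injective V (two_ne_zero (α := ℝ)) this).symm

theorem Qu.good (h : D.Qu A) (hn : ∀ L, ¬ D.Li L) : D.Good ∧ Module.finrank ℝ V ≤ 2 := by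
  classical
  have hA : 0 < D.B A A := by rw [h.2.2]; norm_num
  have hz : ∀ a, D.B a A = 0 → D.B a a = 0 → a = 0 := fun a h1 h2 =>
    eq_zero hA ((D.symm _ _).trans h1) h2.ge
  obtain ⟨a, ha, h0⟩ : ∃ a, D.B a A = 0 ∧ D.B a a ≠ 0 := by
    by_contra hc
    push Not at hc
    have h1 := finrank_le (D := D) {A} fun a ha =>
      hz a (ha A (mem_singleton_self _)) (hc a (ha A (mem_singleton_self _)))
    have h2 := D.noether
    rw [card_singleton] at h1
    have h3 : D.B (D.c - (2 : ℝ) • A) A = 0 := by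
      simp only [map_sub, map_smul, LinearMap.sub_apply, LinearMap.smul_apply, smul_eq_mul,
        h.2.1, h.2.2]
      norm_num
    have h4 := sub_eq_zero.1 (hz _ h3 (hc _ h3))
    have h5 : (D.d : ℝ) = 8 := by
      rw [← D.hd]
      nth_rewrite 2 [h4]
      rw [map_smul, h.2.1]
      norm_num
    have h6 : D.d = 8 := by exact_mod_cast h5
    omega
  obtain ⟨F, hF, hF', h1, -⟩ := gd_split h hn ha h0
  have key : ∀ b, D.B b F = 0 → D.B b (A - F) = 0 → b = 0 := fun b b1 b2 => by
    have b3 : D.B b A = 0 := by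
      rw [map_sub, b1, sub_zero] at b2
      exact b2
    refine hz b b3 (by_contra fun b4 => ?_)
    obtain ⟨G, hG, -, g1, g2⟩ := gd_split h hn b3 b4
    have n1 : G ≠ F := fun e => g2 (e ▸ b1)
    have n2 : G ≠ A - F := fun e => g2 (e ▸ b2)
    obtain ⟨k, hk⟩ := D.pos G hG.1 F hF.1 n1
    obtain ⟨k', hk'⟩ := D.pos G hG.1 _ hF'.1 n2
    have s : (k : ℝ) + k' = 1 := by
      rw [← hk, ← hk', map_sub]
      rw [map_sub, hG.2.2] at g1
      linarith
    have s' : k + k' = 1 := by exact_mod_cast s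
    rcases Nat.eq_zero_or_pos k with k0 | k0
    · exact n1 (gd_eq hG hF (by rw [hk, k0, Nat.cast_zero]))
    · exact n2 (gd_eq hG hF' (by rw [hk', show k' = 0 by omega, Nat.cast_zero]))
  have h2 : D.B (A - F) F = 1 := (D.symm _ _).trans h1
  have hc : D.c - ((2 : ℝ) • F + (2 : ℝ) • (A - F)) = 0 := by
    generalize A - F = F' at *
    refine key _ ?_ ?_ <;>
      simp only [map_sub, map_add, map_smul, LinearMap.sub_apply, LinearMap.add_apply,
        LinearMap.smul_apply, smul_eq_mul, hF.2.1, hF.2.2, hF'.2.1, hF'.2.2, h1, h2] <;> norm_num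
  have hc' := sub_eq_zero.1 hc
  have h5 : (D.d : ℝ) = 8 := by
    rw [← D.hd]
    nth_rewrite 2 [hc']
    rw [map_add, map_smul, map_smul, hF.2.1, hF'.2.1]
    norm_num
  have h6 : D.d = 8 := by exact_mod_cast h5
  refine ⟨⟨4, ![F, F, A - F, A - F], fun i => ?_, ?_, by omega⟩, ?_⟩
  · fin_cases i
    exacts [Or.inl hF, Or.inl hF, Or.inl hF', Or.inl hF']
  · rw [hc', Fin.sum_univ_four]
    simp only [Matrix.cons_val]
    module
  · exact (finrank_le (D := D) {F, A - F} fun b hb =>
      key b (hb _ (by simp)) (hb _ (by simp))).trans card_le_two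

end Pool.Agent.Lib.MP_1c0d65_gt.QN.Num
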