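import Pool.Agent.Lib.MP_1c0d65_gt.QN.Basic

/-! A line class gives an orthonormal basis. -/

set_option autoImplicit false

open Finset

noncomputable section

namespace Pool.Agent.Lib.MP_1c0d65_gt.QN.Num

variable {V : Type} [AddCommGroup V] [Module ℝ V] {D : Num V} {A A' L F x y a : V}

theorem mem_P : A ∈ D.P L ↔ A ∈ D.S ∧ D.B D.c A = 1 ∧ D.B A L = 0 := by
  classical
  simp only [P, mem_filter]

theorem Li.sq_pos (hL : D.Li L) : 0 < D.B L L := by rw [hL.2.2]; norm_num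

theorem Li.ex (hL : D.Li L) (h : A ∈ D.P L) : D.Ex A := by
  obtain ⟨h1, h2, h3⟩ := mem_P.1 h
  refine (deg_one h1 h2).resolve_right fun e => ?_
  rw [e.2, hL.2.1] at h3
  norm_num at h3

theorem Li.orth (hL : D.Li L) (h : A ∈ D.P L) (h' : A' ∈ D.P L) (hne : A ≠ A') :
    D.B A A' = 0 := by
  obtain ⟨h1, h2, h3⟩ := mem_P.1 h
  obtain ⟨h1', h2', h3'⟩ := mem_P.1 h'
  obtain ⟨k, hk⟩ := D.pos A h1 A' h1' hne
  rcases Nat.eq_zero_or_pos k with rfl | k0
  · simpa using hk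
  have k1 : (1 : ℝ) ≤ k := by exact_mod_cast k0
  have e := eq_zero (y := A + A') hL.sq_pos (by simp [D.symm L, h3, h3'])
    (by simp [(hL.ex h).2.2, (hL.ex h').2.2, D.symm A' A, hk]; linarith)
  have := congrArg (D.B D.c) e
  rw [map_add, h2, h2', map_zero] at this
  norm_num at this

theorem Li.key (hL : D.Li L) (ha : D.B a L = 0) (h0 : a ≠ 0) :
    ∃ A ∈ D.P L, D.Co (L - A) ∧ D.B a A ≠ 0 := by
  obtain ⟨A, h1, h2, h3, h4, -, h6⟩ := split hL.1 (by rw [hL.2.1]; norm_num) ha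
    fun e => h0 (eq_zero hL.sq_pos (by rwa [D.symm]) e.ge)
  rw [hL.2.1] at h3
  have d1 : D.B D.c A = 1 := by
    rcases D.deg A h1 with e | e | e | e <;> linarith
  have d2 : D.B D.c (L - A) = 2 := by rw [map_sub, hL.2.1, d1]; norm_num
  have s1 := sq_ge h1
  have s2 := sq_ge h2
  have e : D.B L L = D.B A A + D.B (L - A) (L - A) + 2 * D.B A (L - A) := by
    simp [D.symm L A]; ring
  have e' : D.B A L = D.B A A + D.B A (L - A) := by simp
  rw [hL.2.2] at e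
  exact ⟨A, mem_P.2 ⟨h1, d1, by linarith⟩, ⟨h2, d2, by linarith⟩, h6⟩

theorem Li.co (hL : D.Li L) (h : A ∈ D.P L) : D.Co (L - A) := by
  obtain ⟨A', h1, h2, h3⟩ := hL.key (mem_P.1 h).2.2 (by
    rintro rfl
    simpa using (hL.ex h).2.2)
  obtain rfl : A = A' := by
    by_contra e
    exact h3 (hL.orth h h1 e)
  exact h2

theorem Li.sum_apply (hL : D.Li L) (f : V → ℝ) (h : A ∈ D.P L) :
    D.B (∑ A' ∈ D.P L, f A' • A') A = -f A := by
  rw [map_sum, LinearMap.sum_apply, sum_eq_single_of_mem A h fun A' h' e => by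
    simp [hL.orth h' h e]]
  simp [(hL.ex h).2.2]

theorem Li.sum_apply' (f : V → ℝ) : D.B (∑ A' ∈ D.P L, f A' • A') L = 0 := by
  rw [map_sum, LinearMap.sum_apply]
  exact sum_eq_zero fun A h => by simp [(mem_P.1 h).2.2]

theorem Li.expand (hL : D.Li L) (x : V) : x = D.B x L • L - ∑ A ∈ D.P L, D.B x A • A := by
  rw [← sub_eq_zero]
  by_contra h0
  obtain ⟨A, h1, -, h3⟩ := hL.key (by
    rw [map_sub, map_sub, LinearMap.sub_apply, LinearMap.sub_apply, Li.sum_apply']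
    simp [hL.2.2]) h0
  refine h3 ?_
  rw [map_sub, map_sub, LinearMap.sub_apply, LinearMap.sub_apply, hL.sum_apply _ h1]
  simp [D.symm L A, (mem_P.1 h1).2.2]

theorem Li.pars (hL : D.Li L) (x y : V) :
    D.B x y = D.B x L * D.B y L - ∑ A ∈ D.P L, D.B x A * D.B y A := by
  conv_lhs => rw [hL.expand y]
  simp only [map_sub, map_sum, map_smul, smul_eq_mul]
  rw [mul_comm]
  exact congrArg _ (sum_congr rfl fun A _ => mul_comm _ _)

theorem Li.c_eq (hL : D.Li L) : D.c = (3 : ℝ) • L - ∑ A ∈ D.P L, A := by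
  conv_lhs => rw [hL.expand D.c, hL.2.1]
  exact congrArg _ (sum_congr rfl fun A h => by rw [(mem_P.1 h).2.1, one_smul])

theorem Li.card (hL : D.Li L) : D.d + (D.P L).card = 9 := by
  have e := hL.pars D.c D.c
  rw [D.hd, hL.2.1, sum_congr rfl fun A h => by rw [(mem_P.1 h).2.1]] at e
  simp only [mul_one, sum_const, nsmul_eq_mul] at e
  have : (D.d : ℝ) + (D.P L).card = 9 := by linarith
  exact_mod_cast this

theorem Li.ex2 (hL : D.Li L) (h : A ∈ D.P L) (h' : A' ∈ D.P L) (hne : A ≠ A') :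
    D.Ex (L - A - A') := by
  have o := hL.orth h h' hne
  have hF := hL.co h
  obtain ⟨-, a2, a3⟩ := mem_P.1 h
  obtain ⟨-, b2, b3⟩ := mem_P.1 h'
  refine ⟨?_, by rw [map_sub, hF.2.1, b2]; norm_num, by
    simp [hL.2.2, (hL.ex h).2.2, (hL.ex h').2.2, D.symm L A, D.symm L A', D.symm A' A, a3, b3, o]⟩
  have p : D.B A' (L - A) = 0 := by simp [b3, D.symm A' A, o]
  obtain ⟨U, h1, h2, h3, -, -, h6⟩ := split hF.1 hF.2.1.ge p (by rw [(hL.ex h').2.2]; norm_num)
  rw [hF.2.1] at h3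
  have d1 : D.B D.c U = 1 := by linarith [deg_ge h1]
  have d2 : D.B D.c (L - A - U) = 1 := by rw [map_sub, hF.2.1, d1]; norm_num
  have ne : ∀ W, D.B D.c W = 1 → W ≠ L := fun W hW e => by
    rw [e, hL.2.1] at hW
    norm_num at hW
  obtain ⟨k, hk⟩ := D.pos U h1 L hL.1 (ne U d1)
  have n2 := nonneg h2 hL.1 (ne _ d2)
  have e : D.B (L - A - U) L = 1 - k := by simp [hL.2.2, a3, hk]
  have same : ∀ W ∈ D.P L, D.B A' W ≠ 0 → A' = W := fun W hW h0 => by
    by_contra e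
    exact h0 (hL.orth h' hW e)
  rcases Nat.eq_zero_or_pos k with rfl | k0
  · rwa [same U (mem_P.2 ⟨h1, d1, by simpa using hk⟩) h6]
  · have k1 : (1 : ℝ) ≤ k := by exact_mod_cast k0
    have := same _ (mem_P.2 ⟨h2, d2, by linarith⟩) (by
      rw [map_sub, p]
      simpa using h6)
    rwa [this, sub_sub_cancel]

theorem Li.crem (hL : D.Li L) {A'' : V} (h : A ∈ D.P L) (h' : A' ∈ D.P L) (h'' : A'' ∈ D.P L)
    (n1 : A ≠ A') (n2 : A ≠ A'') (n3 : A' ≠ A'') : D.Li ((L - A - A') + (L - A'')) :=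
  (hL.ex2 h h' n1).glue_co (hL.co h'') (by
    simp [hL.2.2, (mem_P.1 h).2.2, (mem_P.1 h').2.2, D.symm L A'', (mem_P.1 h'').2.2,
      hL.orth h h'' n2, hL.orth h' h'' n3])

end Pool.Agent.Lib.MP_1c0d65_gt.QN.Num
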