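import Pool.Agent.Lib.MP_1c0d65_gt.QN.Basic

/-! Low degree, a conic class and no line class: impossible. -/

set_option autoImplicit false

open Finset

noncomputable section

namespace Pool.Agent.Lib.MP_1c0d65_gt.QN.Num

variable {V : Type} [AddCommGroup V] [Module ℝ V] {D : Num V} {A A' L F E U x y a : V}

theorem la_perp (hF : D.Co F) (h : D.Ex U) (h' : D.Ex (F - U)) : D.B U F = 0 := by
  have h1 := h'.2.2
  simp only [map_sub, LinearMap.sub_apply, hF.2.2, h.2.2, D.symm F U] at h1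
  linarith

/-- The splittings of a conic class. -/
theorem la_split (hF : D.Co F) (ha : D.B a F = 0) (h0 : D.B a a ≠ 0) :
    ∃ U, D.Ex U ∧ D.Ex (F - U) ∧ D.B a U ≠ 0 := by
  obtain ⟨U, m1, m2, h2, h3, -, h5⟩ := split hF.1 hF.2.1.ge ha h0
  have c1 : D.B D.c U = 1 := by
    have := deg_ge m1
    rw [hF.2.1] at h2
    linarith
  have c2 : D.B D.c (F - U) = 1 := by rw [map_sub, hF.2.1, c1]; norm_num
  have s1 := sq_ge m1
  have s2 := sq_ge m2
  have e : D.B F F = D.B U U + D.B (F - U) (F - U) + 2 * D.B U (F - U) := by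
    simp only [map_sub, LinearMap.sub_apply, D.symm F U]
    ring
  rw [hF.2.2] at e
  rw [c1] at s1
  rw [c2] at s2
  exact ⟨U, ⟨m1, c1, by linarith⟩, ⟨m2, c2, by linarith⟩, h5⟩

theorem la_orth (h : D.Ex U) (h' : D.Ex (F - U)) (hE : E ∈ D.S) (h0 : D.B E F = 0)
    (n1 : E ≠ U) (n2 : E ≠ F - U) : D.B E U = 0 := by
  have h1 := nonneg hE h.1 n1
  have h2 := nonneg hE h'.1 n2
  rw [map_sub, h0] at h2
  linarith

/-- One component from each singular conic. -/
structure LaR (D : Num V) (F : V) (R : Finset V) : Prop where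
  ex : ∀ U ∈ R, D.Ex U ∧ D.Ex (F - U)
  orth : ∀ U ∈ R, ∀ U' ∈ R, U ≠ U' → D.B U U' = 0
  pars : ∀ a, D.B a F = 0 → -D.B a a = ∑ U ∈ R, D.B a U ^ 2
  card : 8 ≤ D.d + R.card

theorem la_exists (hF : D.Co F) : ∃ R, LaR D F R := by
  classical
  obtain ⟨ord, -⟩ := exists_wellFoundedLT V
  let R : Finset V := D.S.filter fun U => D.Ex U ∧ D.Ex (F - U) ∧ ord.lt U (F - U)
  have ex : ∀ U ∈ R, D.Ex U ∧ D.Ex (F - U) := fun U hU =>
    ⟨(mem_filter.1 hU).2.1, (mem_filter.1 hU).2.2.1⟩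
  have orth : ∀ U ∈ R, ∀ U' ∈ R, U ≠ U' → D.B U U' = 0 := fun U hU U' hU' n =>
    la_orth (ex U' hU').1 (ex U' hU').2 (ex U hU).1.1 (la_perp hF (ex U hU).1 (ex U hU).2) n
      fun e => by
        have h1 := (mem_filter.1 hU).2.2.2
        have h2 := (mem_filter.1 hU').2.2.2
        rw [← e] at h2
        rw [show F - U = U' by rw [e]; abel] at h1
        exact @lt_asymm V ord.toPreorder _ _ h1 h2
  have key : ∀ a, D.B a F = 0 → (∀ U ∈ R, D.B a U = 0) → D.B a a = 0 := by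
    intro a ha hR
    by_contra h0
    obtain ⟨U, h1, h2, h3⟩ := la_split hF ha h0
    rcases @lt_trichotomy V ord U (F - U) with l | l | l
    · exact h3 (hR U (mem_filter.2 ⟨h1.1, h1, h2, l⟩))
    · exact h3 (half ha l)
    · have := hR (F - U) (mem_filter.2 ⟨h2.1, h2, by rwa [sub_sub_cancel],
        by rwa [sub_sub_cancel]⟩)
      rw [map_sub, ha] at this
      exact h3 (by linarith)
  refine ⟨R, ex, orth, fun a ha => ?_, ?_⟩
  · have b1 : ∀ z, D.B (a + ∑ U ∈ R, D.B a U • U) z = D.B a z + ∑ U ∈ R, D.B a U * D.B U z := by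
      intro z
      simp [map_sum, LinearMap.sum_apply]
    have b2 : ∀ U ∈ R, D.B (a + ∑ U ∈ R, D.B a U • U) U = 0 := by
      intro U hU
      rw [b1, sum_eq_single_of_mem U hU fun U' hU' n => by rw [orth U' hU' U hU n, mul_zero],
        (ex U hU).1.2.2]
      ring
    have b3 := key _ (by
      rw [b1, ha, sum_eq_zero fun U hU => by rw [la_perp hF (ex U hU).1 (ex U hU).2, mul_zero]]
      ring) b2
    have b4 : ∑ U ∈ R, D.B a U * D.B U (a + ∑ U ∈ R, D.B a U • U) = 0 :=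
      sum_eq_zero fun U hU => by rw [D.symm U, b2 U hU, mul_zero]
    have b5 : ∑ U ∈ R, D.B a U * D.B U a = ∑ U ∈ R, D.B a U ^ 2 :=
      sum_congr rfl fun U _ => by rw [D.symm U a, sq]
    rw [b1, b4, D.symm a, b1, b5] at b3
    linarith
  · have h1 := finrank_le (D := D) (insert D.c (insert F R)) fun a h =>
      eq_zero c_pos (by rw [D.symm]; exact h _ (by simp))
        (key a (h _ (by simp)) fun U hU => h _ (by simp [hU])).ge
    have h2 := card_insert_le D.c (insert F R)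
    have h3 := card_insert_le F R
    have := D.noether
    omega

variable {R : Finset V}

/-- An exceptional class orthogonal to the conic is a component of a singular conic. -/
theorem LaR.mem (hR : LaR D F R) (hE : D.Ex E) (h0 : D.B E F = 0) :
    ∃ U ∈ R, E = U ∨ E = F - U := by
  by_contra hn
  push Not at hn
  have := hR.pars E h0
  rw [hE.2.2, sum_eq_zero fun U hU => by
    rw [la_orth (hR.ex U hU).1 (hR.ex U hU).2 hE.1 h0 (hn U hU).1 (hn U hU).2]; ring] at this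
  norm_num at this

theorem LaR.cross (hR : LaR D F R) (hF : D.Co F) {U' W W' : V} (hU : U ∈ R) (hU' : U' ∈ R)
    (n : U ≠ U') (h : W = U ∨ W = F - U) (h' : W' = U' ∨ W' = F - U') : D.B W W' = 0 := by
  have p1 := la_perp hF (hR.ex U hU).1 (hR.ex U hU).2
  have p2 := la_perp hF (hR.ex U' hU').1 (hR.ex U' hU').2
  have p3 := hR.orth U hU U' hU' n
  rcases h with rfl | rfl <;> rcases h' with rfl | rfl <;>
    simp [p1, p2, p3, hF.2.2, D.symm F]

theorem LaR.ex' (hR : LaR D F R) {W : V} (hU : U ∈ R) (h : W = U ∨ W = F - U) : D.Ex W := by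
  rcases h with rfl | rfl
  exacts [(hR.ex _ hU).1, (hR.ex _ hU).2]

/-- At most one singular conic has a component that meets `E` once. -/
theorem LaR.hit (hR : LaR D F R) (hF : D.Co F) (hn : ∀ L, ¬ D.Li L) (hE : D.Ex E) :
    ∃ U₁, ∀ U ∈ R, U ≠ U₁ → ∀ W, W = U ∨ W = F - U → D.B E W ≠ 1 := by
  by_contra h
  push Not at h
  obtain ⟨U, hU, -, W, hW, e⟩ := h 0
  obtain ⟨U', hU', n, W', hW', e'⟩ := h U
  refine hn _ (Ex.glue_co (hR.ex' hU' hW') (Ex.glue hE (hR.ex' hU hW) e) ?_)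
  rw [map_add, D.symm W' E, e', hR.cross hF hU' hU n hW' hW, add_zero]

theorem LaR.formula (hR : LaR D F R) (hF : D.Co F) (hE : D.Ex E) {j : ℝ} (hj : D.B E F = j) :
    1 + j - j ^ 2 * D.d / 4 = ∑ U ∈ R, (D.B E U - j / 2) ^ 2 := by
  have := hR.pars (E - (j / 2) • D.c) (by simp [hj, hF.2.1])
  rw [sum_congr rfl fun U hU => show _ = (D.B E U - j / 2) ^ 2 by
    simp [(hR.ex U hU).1.2.1]] at this
  rw [← this]
  simp [hE.2.2, hE.2.1, D.symm E D.c, D.hd]
  ring

theorem LaR.nat (hR : LaR D F R) (hF : D.Co F) (hE : D.Ex E) (h0 : D.B E F ≠ 0) (hU : U ∈ R) :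
    ∃ k : ℕ, D.B E U = k ∧ (k : ℝ) ≤ D.B E F := by
  have p := la_perp hF (hR.ex U hU).1 (hR.ex U hU).2
  obtain ⟨k, hk⟩ := D.pos E hE.1 U (hR.ex U hU).1.1 fun e => h0 (by rw [e, p])
  have := nonneg hE.1 (hR.ex U hU).2.1 fun e => h0 (by rw [e]; simp [p, hF.2.2])
  rw [map_sub] at this
  exact ⟨k, hk, by linarith⟩

omit [AddCommGroup V] [Module ℝ V] in
theorem la_sum {f : V → ℝ} (U₁ : V) (m : ℝ) (hm : 0 ≤ m) (h0 : ∀ U, 0 ≤ f U)
    (h : ∀ U ∈ R, U ≠ U₁ → m ≤ f U) : ((R.card : ℝ) - 1) * m ≤ ∑ U ∈ R, f U := by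
  classical
  have h1 : ∑ U ∈ R.erase U₁, f U ≤ ∑ U ∈ R, f U :=
    sum_le_sum_of_subset_of_nonneg (erase_subset _ _) fun U _ _ => h0 U
  have h2 := card_nsmul_le_sum (R.erase U₁) f m fun U hU =>
    h U (mem_erase.1 hU).2 (mem_erase.1 hU).1
  have h3 : (R.card : ℝ) ≤ (R.erase U₁).card + 1 := by
    exact_mod_cast (show R.card ≤ (R.erase U₁).card + 1 by
      have := pred_card_le_card_erase (s := R) (a := U₁)
      omega)
  rw [nsmul_eq_mul] at h2
  nlinarith

/-- An exceptional class meets the conic zero or four times. -/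
theorem LaR.zero_or_four (hR : LaR D F R) (hF : D.Co F) (h4 : D.d ≤ 4) (hn : ∀ L, ¬ D.Li L)
    (hE : D.Ex E) : D.B E F = 0 ∨ D.B E F = 4 := by
  obtain ⟨j, hj⟩ := D.pos E hE.1 F hF.1 fun e => by
    have := hE.2.1
    rw [e, hF.2.1] at this
    norm_num at this
  obtain ⟨U₁, h1⟩ := hR.hit hF hn hE
  have hf := hR.formula hF hE hj
  have d1 : (1 : ℝ) ≤ D.d := by exact_mod_cast D.d0
  have d4 : (D.d : ℝ) ≤ 4 := by exact_mod_cast h4
  have c8 : (8 : ℝ) ≤ D.d + R.card := by exact_mod_cast hR.card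
  have hk : j ≠ 0 → ∀ U ∈ R, U ≠ U₁ → ∃ k : ℕ, D.B E U = k ∧ k ≤ j ∧ k ≠ 1 ∧ k + 1 ≠ j := by
    intro j0 U hU n
    obtain ⟨k, e, l⟩ := hR.nat hF hE (by rw [hj]; exact_mod_cast j0) hU
    refine ⟨k, e, by rw [hj] at l; exact_mod_cast l, fun e1 => h1 U hU n U (Or.inl rfl) ?_,
      fun e1 => h1 U hU n _ (Or.inr rfl) ?_⟩
    · rw [e, e1, Nat.cast_one]
    · rw [map_sub, e, hj, ← e1]; push_cast; ring
  rcases (show j = 0 ∨ j = 1 ∨ j = 2 ∨ j = 3 ∨ j = 4 ∨ 5 ≤ j by omega) with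
    rfl | rfl | rfl | rfl | rfl | h5
  · exact Or.inl (by simpa using hj)
  · exact (hn _ (Ex.glue_co hE hF (by simpa using hj))).elim
  · have := la_sum (R := R) (f := fun U => (D.B E U - ((2 : ℕ) : ℝ) / 2) ^ 2) U₁ 1 zero_le_one
      (fun _ => sq_nonneg _) fun U hU n => by
        obtain ⟨k, e, l, n1, -⟩ := hk (by norm_num) U hU n
        rw [e]
        rcases (show k = 0 ∨ k = 2 by omega) with rfl | rfl <;> norm_num
    rw [← hf] at this
    push_cast at this
    exfalso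
    linarith
  · have := la_sum (R := R) (f := fun U => (D.B E U - ((3 : ℕ) : ℝ) / 2) ^ 2) U₁ 1 zero_le_one
      (fun _ => sq_nonneg _) fun U hU n => by
        obtain ⟨k, e, l, n1, n2⟩ := hk (by norm_num) U hU n
        rw [e]
        rcases (show k = 0 ∨ k = 3 by omega) with rfl | rfl <;> norm_num
    rw [← hf] at this
    push_cast at this
    exfalso
    linarith
  · exact Or.inr (by simpa using hj)
  · have h5' : (5 : ℝ) ≤ j := by exact_mod_cast h5
    have : 0 ≤ ∑ U ∈ R, (D.B E U - (j : ℝ) / 2) ^ 2 := sum_nonneg fun _ _ => sq_nonneg _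
    rw [← hf] at this
    exfalso
    nlinarith [mul_nonneg (sq_nonneg (j : ℝ)) (sub_nonneg.2 d1)]

/-- Every exceptional class is orthogonal to the conic. -/
theorem LaR.zero (hR : LaR D F R) (hF : D.Co F) (h4 : D.d ≤ 4) (hn : ∀ L, ¬ D.Li L)
    (hE : D.Ex E) : D.B E F = 0 := by
  classical
  rcases hR.zero_or_four hF h4 hn hE with hj | hj
  · exact hj
  exfalso
  obtain ⟨U₁, h1⟩ := hR.hit hF hn hE
  have hf := hR.formula hF hE hj
  have d1 : (1 : ℝ) ≤ D.d := by exact_mod_cast D.d0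
  have le1 : ∀ U ∈ R, (D.B E U - 4 / 2) ^ 2 ≤ 1 := fun U hU => by
    have := single_le_sum (f := fun U => (D.B E U - 4 / 2) ^ 2) (fun _ _ => sq_nonneg _) hU
    rw [← hf] at this
    linarith
  have k123 : ∀ U ∈ R, D.B E U = 1 ∨ D.B E U = 2 ∨ D.B E (F - U) = 1 := fun U hU => by
    obtain ⟨k, e, l⟩ := hR.nat hF hE (by rw [hj]; norm_num) hU
    have l' : k ≤ 4 := by rw [hj] at l; exact_mod_cast l
    have := le1 U hU
    rw [map_sub, hj]
    rw [e] at this ⊢
    interval_cases k <;> first | (norm_num at this; done) | norm_num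
  have two : ∀ U ∈ R, U ≠ U₁ → D.B E U = 2 := fun U hU n => by
    rcases k123 U hU with e | e | e
    exacts [(h1 U hU n U (Or.inl rfl) e).elim, e, (h1 U hU n _ (Or.inr rfl) e).elim]
  obtain ⟨m1, W₁, hW, e1⟩ : U₁ ∈ R ∧ ∃ W, (W = U₁ ∨ W = F - U₁) ∧ D.B E W = 1 := by
    by_contra hc
    have : ∀ U ∈ R, D.B E U = 2 := fun U hU => by
      by_cases n : U = U₁
      · subst n
        rcases k123 U hU with e | e | e
        exacts [(hc ⟨hU, U, Or.inl rfl, e⟩).elim, e, (hc ⟨hU, _, Or.inr rfl, e⟩).elim]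
      · exact two U hU n
    rw [sum_eq_zero fun U hU => by rw [this U hU]; norm_num] at hf
    have h5 : 4 * D.d = 5 := by exact_mod_cast (show (4 : ℝ) * D.d = 5 by linarith)
    omega
  obtain ⟨U₂, m2, U₃, m3, n23⟩ : ∃ U₂ ∈ R.erase U₁, ∃ U₃ ∈ R.erase U₁, U₂ ≠ U₃ :=
    one_lt_card.1 (by
      have := hR.card
      have := pred_card_le_card_erase (s := R) (a := U₁)
      omega)
  obtain ⟨n2, m2⟩ := mem_erase.1 m2
  obtain ⟨n3, m3⟩ := mem_erase.1 m3
  have hF1 := Ex.glue hE (hR.ex' m1 hW) e1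
  have aW : ∀ W, W = U₁ ∨ W = F - U₁ → D.B (U₂ - U₃) W = 0 := fun W h => by
    rw [map_sub, LinearMap.sub_apply, hR.cross hF m2 m1 n2 (Or.inl rfl) h,
      hR.cross hF m3 m1 n3 (Or.inl rfl) h, sub_zero]
  have a1 : D.B (U₂ - U₃) (E + W₁) = 0 := by
    rw [map_add, aW _ hW, map_sub, LinearMap.sub_apply, D.symm U₂, D.symm U₃, two _ m2 n2,
      two _ m3 n3]
    ring
  obtain ⟨W, x1, x2, a2⟩ := la_split hF1 a1 (by
    simp [(hR.ex _ m2).1.2.2, (hR.ex _ m3).1.2.2, hR.orth _ m2 _ m3 n23, D.symm U₃ U₂]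
    norm_num)
  have w0 : D.B W₁ F = 0 := by
    have p := la_perp hF (hR.ex _ m1).1 (hR.ex _ m1).2
    rcases hW with rfl | rfl <;> simp [p, hF.2.2]
  obtain ⟨W₀, y1, y2, y3, y4⟩ : ∃ W₀, D.Ex W₀ ∧ D.B W₀ F = 0 ∧ D.B W₀ (E + W₁) = 0 ∧
      D.B (U₂ - U₃) W₀ ≠ 0 := by
    rcases hR.zero_or_four hF h4 hn x1 with e | e
    · exact ⟨W, x1, e, la_perp hF1 x1 x2, a2⟩
    · refine ⟨_, x2, by simp [hj, w0, e], la_perp hF1 x2 (by rwa [sub_sub_cancel]), ?_⟩
      rw [map_sub (D.B (U₂ - U₃)), a1, zero_sub]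
      exact neg_ne_zero.2 a2
  obtain ⟨U, hU, hW0⟩ := hR.mem y1 y2
  by_cases n : U = U₁
  · subst n
    exact y4 (aW _ hW0)
  · rw [map_add, hR.cross hF hU m1 n hW0 hW, D.symm W₀ E] at y3
    have := two U hU n
    rcases hW0 with rfl | rfl
    · linarith
    · rw [map_sub, hj] at y3
      linarith

theorem la_rank (h4 : D.d ≤ 4) (x y : V) (h : ∀ a, D.B a x = 0 → D.B a y = 0 → a = 0) :
    False := by
  classical
  have h1 := finrank_le (D := D) {x, y} fun a ha => h a (ha _ (by simp)) (ha _ (by simp))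
  have h2 := card_le_two (a := x) (b := y)
  have := D.noether
  omega

theorem lowA (h4 : D.d ≤ 4) (hn : ∀ L, ¬ D.Li L) (hF : D.Co F) : False := by
  obtain ⟨R, hR⟩ := la_exists hF
  have two : ∀ F' ∈ D.S, D.B D.c F' = 2 → F' = F := by
    intro F' m e
    by_contra ne
    refine la_rank h4 D.c F' fun a ac aF => eq_zero c_pos (by rwa [D.symm]) (le_of_eq ?_)
    by_contra h0
    obtain ⟨U, m1, m2, h2, h3, h5, h6⟩ := split m e.ge aF (Ne.symm h0)
    have c1 : D.B D.c U = 1 := by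
      have := deg_ge m1
      rw [e] at h2
      linarith
    have c2 : D.B D.c (F' - U) = 1 := by rw [map_sub, e, c1]; norm_num
    have x1 : D.Ex U := (deg_one m1 c1).resolve_right fun h => h6 (by rw [h.2, ac])
    have x2 : D.Ex (F' - U) := (deg_one m2 c2).resolve_right fun h => h6 (by
      have := congrArg (D.B a) h.2
      rw [map_sub, aF, ac] at this
      linarith)
    obtain ⟨U', hU', hW⟩ := hR.mem x1 (hR.zero hF h4 hn x1)
    have x3 : D.Ex (F - U) := hR.ex' hU' (by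
      rcases hW with rfl | rfl
      exacts [Or.inr rfl, Or.inl (sub_sub_cancel _ _)])
    have := la_orth x1 x3 m2 (hR.zero hF h4 hn x2) h5.symm fun h => ne (sub_left_injective h)
    rw [D.symm] at this
    linarith
  have three : ∀ L ∈ D.S, D.B D.c L ≠ 3 := by
    intro L m e
    have s := sq_ge m
    refine la_rank h4 L F fun a aL aF =>
      eq_zero (x := L) (by linarith) (by rwa [D.symm]) (le_of_eq ?_)
    by_contra h0
    obtain ⟨U, m1, m2, h2, -, -, h6⟩ := split m (by linarith) aL (Ne.symm h0)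
    have c1 : D.B D.c U = 1 := by
      rcases D.deg U m1 with e' | e' | e' | e' <;> linarith
    have := congrArg (D.B a) (two _ m2 (by rw [map_sub, e, c1]; norm_num))
    rw [map_sub, aL, aF] at this
    exact h6 (by linarith)
  obtain ⟨Q, m, e⟩ := D.ne
  have e4 : D.B D.c Q = 4 := by
    rcases D.deg Q m with e' | e' | e' | e'
    exacts [by linarith, by linarith, (three Q m e').elim, e']
  have s := sq_ge m
  refine la_rank h4 Q Q fun a aQ _ =>
    eq_zero (x := Q) (by linarith) (by rwa [D.symm]) (le_of_eq ?_)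
  by_contra h0
  obtain ⟨U, m1, m2, h2, -, h5, -⟩ := split m (by linarith) aQ (Ne.symm h0)
  rcases D.deg U m1 with e' | e' | e' | e'
  · exact three _ m2 (by rw [map_sub, e4, e']; norm_num)
  · exact h5 ((two _ m1 e').trans (two _ m2 (by rw [map_sub, e4, e']; norm_num)).symm)
  · linarith
  · linarith

end Pool.Agent.Lib.MP_1c0d65_gt.QN.Num
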