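import Pool.Agent.Lib.MP_1c0d65_gt.QN.Basic

/-! Low degree, no conic class. -/

set_option autoImplicit false
set_option linter.unusedSectionVars false

open Finset

noncomputable section

namespace Pool.Agent.Lib.MP_1c0d65_gt.QN.Num

variable {V : Type} [AddCommGroup V] [Module ℝ V] [FiniteDimensional ℝ V] {D : Num V}
  {A A' L F x y a : V}

theorem lb_perp (D : Num V) (s : Finset V) (hs : s.card < Module.finrank ℝ V) :
    ∃ a, a ≠ 0 ∧ ∀ z ∈ s, D.B a z = 0 := by
  by_contra h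
  push Not at h
  refine absurd (finrank_le (D := D) s fun a ha => ?_) hs.not_ge
  by_contra h0
  obtain ⟨z, hz, h1⟩ := h a h0
  exact h1 (ha z hz)

theorem lb_three (h2 : 2 ≤ Module.finrank ℝ V) (h : A ∈ D.S) (h3 : 3 ≤ D.B D.c A) :
    ∃ A' ∈ D.S, A - A' ∈ D.S ∧ 2 * D.B D.c A' ≤ D.B D.c A := by
  obtain ⟨a, a0, ha⟩ := D.lb_perp {A} (by rw [card_singleton]; omega)
  have h1 := ha A (mem_singleton_self A)
  obtain ⟨A', m1, m2, m3, -⟩ := split h (by linarith) h1 fun e =>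
    a0 (eq_zero (x := A) (by linarith [sq_ge h]) (by rwa [D.symm]) e.ge)
  exact ⟨A', m1, m2, m3⟩

theorem lb_two (h2 : 2 ≤ Module.finrank ℝ V) : ∃ F ∈ D.S, D.B D.c F = 2 := by
  have key : ∀ A ∈ D.S, D.B D.c A = 3 → ∃ F ∈ D.S, D.B D.c F = 2 := fun A h h3 => by
    obtain ⟨A', m1, m2, m3⟩ := lb_three h2 h h3.ge
    refine ⟨_, m2, ?_⟩
    rw [map_sub]
    rcases D.deg A' m1 with e | e | e | e <;> linarith
  obtain ⟨A, h, h3⟩ := D.ne
  rcases D.deg A h with e | e | e | e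
  · linarith
  · linarith
  · exact key A h e
  · obtain ⟨A', m1, m2, m3⟩ := lb_three h2 h h3
    rcases D.deg A' m1 with e' | e' | e' | e'
    · exact key _ m2 (by rw [map_sub]; linarith)
    · exact ⟨A', m1, e'⟩
    · linarith
    · linarith

theorem lb_split (hF : F ∈ D.S) (h2 : D.B D.c F = 2) (ha : a ≠ 0) (h1 : D.B a D.c = 0)
    (h3 : D.B a F = 0) : ∃ U, D.Ex U ∧ D.Ex (F - U) ∧ D.B a U ≠ 0 := by
  obtain ⟨U, hU, hU', m, -, -, n⟩ := split hF h2.ge h3 fun e =>
    ha (eq_zero c_pos (by rwa [D.symm]) e.ge)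
  have e1 : D.B D.c U = 1 := by linarith [deg_ge hU]
  have e2 : D.B D.c (F - U) = 1 := by rw [map_sub]; linarith
  rcases deg_one hU e1 with x | ⟨-, x⟩
  · rcases deg_one hU' e2 with y | ⟨-, y⟩
    · exact ⟨U, x, y, n⟩
    · rw [← y, map_sub] at h1
      exact (n (by linarith)).elim
  · exact (n (by rw [x, h1])).elim

theorem lb_nat (hn : ∀ F, ¬ D.Co F) (h : D.Ex A) (h' : D.Ex A') (hne : A ≠ A') :
    ∃ k : ℕ, k ≠ 1 ∧ D.B A A' = k := by
  obtain ⟨k, hk⟩ := D.pos A h.1 A' h'.1 hne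
  refine ⟨k, ?_, hk⟩
  rintro rfl
  exact hn _ (h.glue h' (by rw [hk]; norm_num))

theorem lb_small (h4 : 4 ≤ Module.finrank ℝ V) (hn : ∀ F, ¬ D.Co F) (hF : F ∈ D.S)
    (h2 : D.B D.c F = 2) {k : ℕ} (hk : D.B F F = k) (k2 : 2 ≤ k) (k3 : k ≤ 3) : False := by
  classical
  obtain ⟨a, a0, ha⟩ := D.lb_perp {D.c, F} (card_le_two.trans_lt (by omega))
  obtain ⟨U, x, y, -⟩ := lb_split hF h2 a0 (ha _ (by simp)) (ha _ (by simp))
  obtain ⟨b, b0, hb⟩ := D.lb_perp {D.c, F, U} (card_le_three.trans_lt (by omega))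
  have b1 := hb F (by simp)
  have b2 := hb U (by simp)
  obtain ⟨W, x', y', n⟩ := lb_split hF h2 b0 (hb _ (by simp)) b1
  obtain ⟨i, i1, hi⟩ := lb_nat hn x' x (by rintro rfl; exact n b2)
  obtain ⟨j, j1, hj⟩ := lb_nat hn x' y (by rintro rfl; exact n (by rw [map_sub, b1, b2, sub_zero]))
  have e1 := y'.2.2
  simp only [map_sub, LinearMap.sub_apply, x'.2.2, hk, D.symm F W] at e1 hj
  have e2 : (2 : ℝ) * (i + j) = k := by linarith
  have e3 : 2 * (i + j) = k := by exact_mod_cast e2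
  omega

open scoped Classical in
theorem lb_frame (hc : F = D.c + D.c) (hd : D.B D.c D.c = 1) (h1 : D.B a D.c = 0) :
    2 * (D.N F : ℝ) * (-D.B a a) =
      3 * ∑ U ∈ D.S.filter (fun U => D.Ex U ∧ D.Ex (F - U)), D.B a U ^ 2 := by
  have h2 : D.B D.c F = 2 := by rw [hc, map_add, hd]; norm_num
  have h3 : D.B a F = 0 := by rw [hc, map_add, h1, add_zero]
  have e := D.wdvv F a (Or.inl h2) h3
  rw [if_pos h2] at e
  rw [e, mul_sum, sum_filter, sum_filter]
  refine sum_congr rfl fun U hU => ?_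
  by_cases hP : D.Ex U ∧ D.Ex (F - U)
  · rw [if_pos hP, if_pos (by rw [hP.1.2.1, h2]; norm_num),
      D.uniq U hU (by rw [hP.1.2.2]; norm_num), D.uniq _ hP.2.1 (by rw [hP.2.2.2]; norm_num),
      map_sub, hP.1.2.2, hc, map_add, D.symm U D.c, hP.1.2.1]
    norm_num
  · rw [if_neg hP]
    split_ifs with m
    swap
    · rfl
    by_cases h0 : D.N (F - U) = 0
    · simp [h0]
    have hU' := (D.hN _).1 h0
    have e1 : D.B D.c U = 1 := by linarith [deg_ge hU]
    have e2 : D.B D.c (F - U) = 1 := by rw [map_sub]; linarith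
    have n : D.B a U = 0 := by
      rcases deg_one hU e1 with x | ⟨-, x⟩
      · rcases deg_one hU' e2 with y | ⟨-, y⟩
        · exact (hP ⟨x, y⟩).elim
        · rw [← y, map_sub] at h1
          linarith
      · rw [x, h1]
    simp [n]

theorem lb_big (h9 : 9 ≤ Module.finrank ℝ V) (hn : ∀ F, ¬ D.Co F) (hF : F ∈ D.S)
    (hc : F = D.c + D.c) (hd : D.B D.c D.c = 1) : False := by
  classical
  have fr := fun a (h : D.B a D.c = 0) => lb_frame hc hd h
  set P := D.S.filter (fun U => D.Ex U ∧ D.Ex (F - U)) with hP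
  have mP : ∀ U, U ∈ P ↔ D.Ex U ∧ D.Ex (F - U) := fun U => by
    rw [hP, mem_filter]
    exact ⟨fun h => h.2, fun h => ⟨h.1.1, h⟩⟩
  have N0 : (D.N F : ℝ) ≠ 0 := by exact_mod_cast (D.hN F).2 hF
  have p8 : 8 ≤ P.card := by
    by_contra h
    obtain ⟨a, a0, ha⟩ := D.lb_perp (insert D.c P) ((card_insert_le _ _).trans_lt (by omega))
    have h1 := ha _ (mem_insert_self _ _)
    have h2 := fr a h1
    rw [sum_eq_zero fun U hU => by rw [ha U (mem_insert_of_mem hU)]; norm_num, mul_zero,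
      mul_eq_zero, neg_eq_zero] at h2
    exact a0 (eq_zero c_pos (by rwa [D.symm]) (h2.resolve_left (mul_ne_zero two_ne_zero N0)).ge)
  have inv : ∀ U ∈ P, F - U ∈ P := fun U h =>
    (mP _).2 ⟨((mP U).1 h).2, by rw [sub_sub_cancel]; exact ((mP U).1 h).1⟩
  have hc1 : ∀ U ∈ P, D.B D.c U = 1 := fun U h => ((mP U).1 h).1.2.1
  have hs : ∀ U ∈ P, D.B U U = -1 := fun U h => ((mP U).1 h).1.2.2
  have hF2 : ∀ U ∈ P, D.B U F = 2 := fun U h => by
    rw [hc, map_add, D.symm U D.c, hc1 U h]; norm_num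
  have two : ∀ U ∈ P, ∀ W ∈ P, W ≠ U → W ≠ F - U → D.B U W = 0 ∨ D.B U W = 2 := by
    intro U h W h' n1 n2
    obtain ⟨i, i1, hi⟩ := lb_nat hn ((mP U).1 h).1 ((mP W).1 h').1 n1.symm
    obtain ⟨j, j1, hj⟩ := lb_nat hn ((mP U).1 h).1 ((mP W).1 h').2 fun e =>
      n2 (by rw [e, sub_sub_cancel])
    rw [map_sub, hF2 U h, hi] at hj
    have e : i + j = 2 := by exact_mod_cast (show (i : ℝ) + j = 2 by linarith)
    rw [hi]
    rcases (show i = 0 ∨ i = 2 by omega) with rfl | rfl <;> norm_num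
  obtain ⟨U, hU⟩ : P.Nonempty := card_pos.1 (by omega)
  obtain ⟨W, hW, UW, n1, n2⟩ : ∃ W ∈ P, D.B U W = 0 ∧ W ≠ U ∧ W ≠ F - U := by
    obtain ⟨W, hW, h⟩ := exists_mem_notMem_of_card_lt_card (s := {U, F - U}) (t := P)
      (card_le_two.trans_lt (by omega))
    simp only [mem_insert, mem_singleton, not_or] at h
    rcases two U hU W hW h.1 h.2 with e | e
    · exact ⟨W, hW, e, h⟩
    · exact ⟨F - W, inv W hW, by rw [map_sub, hF2 U hU, e, sub_self],
        fun e => h.2 (by rw [← e, sub_sub_cancel]), fun e => h.1 (sub_right_injective e)⟩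
  have WU : D.B W U = 0 := by rw [D.symm, UW]
  have cU := hc1 U hU
  have cW := hc1 W hW
  have Uc : D.B U D.c = 1 := by rw [D.symm, cU]
  have Wc : D.B W D.c = 1 := by rw [D.symm, cW]
  have e1 := fr (U - D.c) (by simp [Uc, hd])
  have e2 := fr (U - W) (by simp [Uc, Wc])
  have s1 : D.B (U - D.c) (U - D.c) = -2 := by
    simp only [map_sub, LinearMap.sub_apply, hs U hU, cU, Uc, hd]; norm_num
  have s2 : D.B (U - W) (U - W) = -2 := by
    simp only [map_sub, LinearMap.sub_apply, hs U hU, hs W hW, UW, WU]; norm_num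
  rw [s1] at e1
  rw [s2] at e2
  have e3 : ∑ Z ∈ P, (D.B (U - D.c) Z ^ 2 - D.B (U - W) Z ^ 2) = 0 := by
    rw [sum_sub_distrib]; linarith
  have n3 : U ≠ F - U := fun e => by
    have := congrArg (D.B U) e
    rw [map_sub, hF2 U hU, hs U hU] at this
    norm_num at this
  have ind : ∀ (Y Z : V) (r : ℝ), 0 ≤ r → 0 ≤ (if Z = Y then r else 0) := fun Y Z r h => by
    split_ifs <;> simp [h]
  have pt : ∀ Z ∈ P, 1 + (if Z = U then (2 : ℝ) else 0) + (if Z = F - U then 2 else 0) -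
      (if Z = W then 1 else 0) - (if Z = F - W then 1 else 0) -
      (if Z = D.c + U - W then 4 else 0) - (if Z = D.c + W - U then 4 else 0) ≤
      D.B (U - D.c) Z ^ 2 - D.B (U - W) Z ^ 2 := by
    intro Z hZ
    have i1 := ind W Z 1 zero_le_one
    have i2 := ind (F - W) Z 1 zero_le_one
    have i3 := ind (D.c + U - W) Z 4 (by norm_num)
    have i4 := ind (D.c + W - U) Z 4 (by norm_num)
    have cZ := hc1 Z hZ
    have Zc : D.B Z D.c = 1 := by rw [D.symm, cZ]
    simp only [map_sub, LinearMap.sub_apply, cZ]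
    by_cases z1 : Z = U
    · rw [if_pos z1, if_neg (z1 ▸ n3)]
      have a1 : D.B U Z = -1 := by rw [z1, hs U hU]
      have a2 : D.B W Z = 0 := by rw [z1, WU]
      rw [a1, a2]; linarith
    rw [if_neg z1]
    by_cases z2 : Z = F - U
    · rw [if_pos z2]
      have a1 : D.B U Z = 3 := by rw [z2, map_sub, hF2 U hU, hs U hU]; norm_num
      have a2 : D.B W Z = 2 := by rw [z2, map_sub, hF2 W hW, WU]; norm_num
      rw [a1, a2]; linarith
    rw [if_neg z2]
    by_cases z3 : Z = W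
    · rw [if_pos z3]
      have a1 : D.B U Z = 0 := by rw [z3, UW]
      have a2 : D.B W Z = -1 := by rw [z3, hs W hW]
      rw [a1, a2]; linarith
    by_cases z4 : Z = F - W
    · rw [if_pos z4]
      have a1 : D.B U Z = 2 := by rw [z4, map_sub, hF2 U hU, UW]; norm_num
      have a2 : D.B W Z = 3 := by rw [z4, map_sub, hF2 W hW, hs W hW]; norm_num
      rw [a1, a2]; linarith
    rw [if_neg z3, if_neg z4]
    rcases two U hU Z hZ z1 z2 with a1 | a1 <;> rcases two W hW Z hZ z3 z4 with a2 | a2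
    · rw [a1, a2]; linarith
    · have : Z = D.c + U - W := sub_eq_zero.1 (eq_zero (D := D) c_pos
        (by simp [cZ, cU, cW, hd]) (by
        simp only [map_sub, map_add, LinearMap.sub_apply, LinearMap.add_apply, hs U hU, hs W hW,
          hs Z hZ, UW, WU, cU, cW, cZ, Uc, Wc, Zc, hd, D.symm Z U, D.symm Z W, a1, a2]
        norm_num))
      rw [if_pos this, a1, a2]; linarith
    · have : Z = D.c + W - U := sub_eq_zero.1 (eq_zero (D := D) c_pos
        (by simp [cZ, cU, cW, hd]) (by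
        simp only [map_sub, map_add, LinearMap.sub_apply, LinearMap.add_apply, hs U hU, hs W hW,
          hs Z hZ, UW, WU, cU, cW, cZ, Uc, Wc, Zc, hd, D.symm Z U, D.symm Z W, a1, a2]
        norm_num))
      rw [if_pos this, a1, a2]; linarith
    · rw [a1, a2]; linarith
  have fin := (sum_le_sum pt).trans_eq e3
  simp only [sum_sub_distrib, sum_add_distrib, sum_ite_eq', if_pos hU, if_pos (inv U hU), if_pos hW,
    if_pos (inv W hW), sum_const, nsmul_eq_mul, mul_one] at fin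
  have p9 : (8 : ℝ) ≤ P.card := by exact_mod_cast p8
  split_ifs at fin <;> linarith

theorem lowB (h4 : D.d ≤ 4) (hn : ∀ F, ¬ D.Co F) : False := by
  have no := D.noether
  obtain ⟨F, hF, h2⟩ := lb_two (D := D) (by omega)
  obtain ⟨k, k1, hk⟩ := D.adj F hF
  rw [h2, sub_self, zero_add] at hk
  have k0 : k ≠ 0 := by
    rintro rfl
    exact hn F ⟨hF, h2, by rw [hk]; norm_num⟩
  by_cases k3 : k ≤ 3
  · exact lb_small (by omega) hn hF h2 hk (by omega) k3
  have k4 : (4 : ℝ) ≤ k := by exact_mod_cast (show 4 ≤ k by omega)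
  have hs := cs (D := D) c_pos F
  have d1 : (1 : ℝ) ≤ D.d := by exact_mod_cast D.d0
  have hd : D.d = 1 := by
    have : (D.d : ℝ) ≤ 1 := by
      rw [D.hd, h2, hk] at hs
      nlinarith
    exact le_antisymm (by exact_mod_cast this) D.d0
  have hc : D.B D.c D.c = 1 := by rw [D.hd, hd]; norm_num
  have e := cs_eq (D := D) (y := F) c_pos (by rw [hc, h2, hk]; linarith)
  rw [hc, h2, one_smul, two_smul] at e
  exact lb_big (by omega) hn hF e hc

end Pool.Agent.Lib.MP_1c0d65_gt.QN.Num
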