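import Pool.Agent.Lib.MP_1c0d65_gt.QN.Bad
import Pool.Agent.Lib.MP_1c0d65_gt.QN.Good
import Pool.Agent.Lib.MP_1c0d65_gt.QN.LowA
import Pool.Agent.Lib.MP_1c0d65_gt.QN.LowB

/-! Either the first Chern class is a sum of conics and lines, or the quantum ring has a nilpotent. -/

set_option autoImplicit false

namespace Pool.Agent.Lib.MP_1c0d65_gt.QN.Num

variable {V : Type} [AddCommGroup V] [Module ℝ V] [FiniteDimensional ℝ V]

theorem good_or_bad (D : Num V) : D.Good ∨ D.Bad := by
  by_cases hL : ∃ L, D.Li L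
  · obtain ⟨L, hL⟩ := hL
    rcases le_or_gt 5 D.d with h | h
    exacts [Or.inl (hL.good h), Or.inr (hL.bad (by omega))]
  push Not at hL
  rcases le_or_gt 5 D.d with h | h
  · obtain ⟨A, hA, h3⟩ := D.ne
    obtain ⟨k, k1, hk⟩ := D.adj A hA
    have hc : 0 < D.B D.c D.c := by rw [D.hd]; exact_mod_cast D.d0
    have h5 : (5 : ℝ) ≤ D.B D.c D.c := by rw [D.hd]; exact_mod_cast h
    have hs := cs hc A
    have k0 : k = 0 := by
      by_contra k0
      have : (2 : ℝ) ≤ k := by exact_mod_cast (show 2 ≤ k by omega)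
      rcases D.deg A hA with e | e | e | e <;> rw [e] at h3 hs hk <;> nlinarith
    subst k0
    rcases D.deg A hA with e | e | e | e
    · linarith
    · linarith
    · exact (hL A ⟨hA, e, by rw [hk, e]; norm_num⟩).elim
    · exact Or.inl (Qu.good ⟨hA, e, by rw [hk, e]; norm_num⟩ hL).1
  · by_cases hF : ∃ F, D.Co F
    · obtain ⟨F, hF⟩ := hF
      exact (lowA (by omega) hL hF).elim
    · push Not at hF
      exact (lowB (by omega) hF).elim

end Pool.Agent.Lib.MP_1c0d65_gt.QN.Num
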